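import Pool.Agent.Lib_helper38.CubicBranch

/-!
# A Green's function of a periodic Jacobi matrix on a tree whose branch point is not of
square-root type

The example is the dumbbell graph (two vertices, a self-loop at each of them, one edge between
them) with `b = ±15` at the vertices, `a² = 60` on the self-loops and `a² = 3` on the bridge; its
universal cover is the 3-regular tree.  The Green's functions have a point with ramification
index 3 over `z₀ = 0`.
-/

set_option autoImplicit false

namespace Pool.Agent.Results.MP_3f5b22_an.CubicBranchPoint

open Pool.Agent.PeriodicJacobi FiniteGraph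

/-- There are a finite connected graph `𝒢` that is not a tree, Jacobi parameters on `𝒢` and a
vertex `x` such that the Riemann surface of Green's function `G_x` of the periodic Jacobi matrix
`H` on the universal cover of `𝒢` has a point, over some `z₀ ∈ ℂ`, with ramification index `3`. -/
theorem result : ∃ (𝒢 : FiniteGraph) (J : JacobiParameters 𝒢) (x : 𝒢.V)
    (H : L2 (𝒢.Cover x) →L[ℂ] L2 (𝒢.Cover x)) (z₀ : ℂ),
    𝒢.Connected ∧ ¬ 𝒢.IsTree ∧ J.IsJacobiMatrix H ∧
      HasPointWithRamificationIndex (resolventEntry H (L2.delta Cover.root)) z₀ 3 :=
  ⟨dumbbell, dumbbellParameters, false, dumbbellParameters.jacobiOperator false, 0,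
    dumbbell_connected, dumbbell_not_isTree, dumbbellParameters.isJacobiMatrix_jacobiOperator false,
    main.1⟩

end Pool.Agent.Results.MP_3f5b22_an.CubicBranchPoint
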